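import Mathlib
import Pool.Agent.Q184.Small.Main

/-!
# If the small-subsets ballean of a group is normal, then the cardinality is regular
-/

open Cardinal Pointwise

namespace Pool.Agent.Results.MP_08c285_gt.NormalRegular

universe u

variable {G : Type u} [Group G]

/-- The entourages of the ballean `(G, E_κ)`, `κ = |G|`: the subsets of the sets
`E_A = {(x, y) | y ∈ x A}` with `|A| < κ`, `1 ∈ A`, `A = A⁻¹`. -/
def IsEntourage (E : Set (G × G)) : Prop :=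
  ∃ A : Set G, #A < #G ∧ (1 : G) ∈ A ∧ A = A⁻¹ ∧ ∀ x y, (x, y) ∈ E → ∃ a ∈ A, y = x * a

/-- `E[S]` -/
def img (E : Set (G × G)) (S : Set G) : Set G := {y | ∃ x ∈ S, (x, y) ∈ E}

/-- Bounded subsets. -/
def Bdd (S : Set G) : Prop := #S < #G

/-- Asymptotically disjoint subsets. -/
def AsympDisjoint (P Q : Set G) : Prop :=
  ∀ E : Set (G × G), IsEntourage E → Bdd (img E P ∩ img E Q)

/-- `U` is an asymptotic neighbourhood of `P`. -/
def IsAsympNhd (U P : Set G) : Prop := ∀ E : Set (G × G), IsEntourage E → Bdd (img E P \ U)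

/-- The ballean `(G, E_κ)` is normal. -/
def IsNormal (G : Type u) [Group G] : Prop :=
  ∀ P Q : Set G, AsympDisjoint P Q →
    ∃ U V : Set G, IsAsympNhd U P ∧ IsAsympNhd V Q ∧ AsympDisjoint U V

/-- For every infinite group `G` whose ballean `(G, E_κ)` is normal, `κ = |G|` is regular. -/
theorem result (G : Type u) [Group G] [Infinite G] (hG : IsNormal G) : (#G).IsRegular := by
  by_contra hsing
  have hinf : ℵ₀ ≤ #G := aleph0_le_mk G
  obtain ⟨P, Q, h1, h2⟩ := Q184.Small.main hsing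
  -- the standard entourages
  have hstd : ∀ A : Set G, #A < #G → ∃ E : Set (G × G), IsEntourage E ∧
      ∀ S : Set G, S * A ⊆ img E S := by
    intro A hA
    refine ⟨{x | ∃ a ∈ insert (1 : G) (A ∪ A⁻¹), x.2 = x.1 * a}, ⟨insert (1 : G) (A ∪ A⁻¹), ?_,
      Set.mem_insert _ _, ?_, fun x y h => h⟩, ?_⟩
    · refine lt_of_le_of_lt mk_insert_le (add_lt_of_lt hinf ?_ (one_lt_aleph0.trans_le hinf))
      refine lt_of_le_of_lt (mk_union_le _ _) (add_lt_of_lt hinf hA ?_)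
      rw [← Set.image_inv_eq_inv]
      exact lt_of_le_of_lt mk_image_le hA
    · ext x
      simp only [Set.mem_insert_iff, Set.mem_union, Set.mem_inv, inv_inv, inv_eq_one]
      tauto
    · rintro S _ ⟨s, hs, a, ha, rfl⟩
      exact ⟨s, hs, a, Or.inr (Or.inl ha), rfl⟩
  obtain ⟨U, V, hU, hV, hUV⟩ := hG P Q (by
    rintro E ⟨A, hA, -, -, hE⟩
    refine lt_of_le_of_lt (mk_le_mk_of_subset ?_) (h1 A A hA hA)
    rintro y ⟨⟨p, hp, hp2⟩, ⟨q, hq, hq2⟩⟩
    obtain ⟨a, ha, rfl⟩ := hE _ _ hp2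
    obtain ⟨b, hb, hab⟩ := hE _ _ hq2
    exact ⟨⟨p, hp, a, ha, rfl⟩, ⟨q, hq, b, hb, hab.symm⟩⟩)
  refine h2 U V ?_ ?_ ?_
  · intro A hA
    obtain ⟨E, hE, hE2⟩ := hstd A hA
    exact lt_of_le_of_lt (mk_le_mk_of_subset (Set.sdiff_subset_sdiff_left (hE2 P))) (hU E hE)
  · intro A hA
    obtain ⟨E, hE, hE2⟩ := hstd A hA
    exact lt_of_le_of_lt (mk_le_mk_of_subset (Set.sdiff_subset_sdiff_left (hE2 Q))) (hV E hE)
  · obtain ⟨E, hE, hE2⟩ := hstd {1} (by rw [mk_singleton]; exact one_lt_aleph0.trans_le hinf)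
    refine lt_of_le_of_lt (mk_le_mk_of_subset ?_) (hUV E hE)
    rintro x ⟨hx1, hx2⟩
    exact ⟨hE2 U ⟨x, hx1, 1, rfl, mul_one x⟩, hE2 V ⟨x, hx2, 1, rfl, mul_one x⟩⟩

end Pool.Agent.Results.MP_08c285_gt.NormalRegular
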